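import Mathlib

set_option autoImplicit false

/-! Real analysis: from `c L² = n + E + o(L)` to the size of `L`. -/

namespace Pool.Agent.H609R3.NM

open Filter Asymptotics

variable {L E R : ℕ → ℝ} {c : ℝ}

/-- the lower bound -/
theorem lower (hc : 0 < c) (hL : Tendsto L atTop atTop) (hE : ∀ᶠ n in atTop, 0 ≤ E n)
    (hR : R =o[atTop] L) (h : ∀ᶠ n : ℕ in atTop, c * L n ^ 2 = n + E n + R n)
    (ε : ℝ) (hε : 0 < ε) : ∀ᶠ n : ℕ in atTop, Real.sqrt (n / c) - ε ≤ L n := by
  have hR' := hR.def (show 0 < c * ε / 2 by positivity)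
  filter_upwards [hE, hR', h, hL.eventually_ge_atTop 1, eventually_ge_atTop 1] with n h1 h2 h3 h4 h5
  by_contra hlt
  push Not at hlt
  set s := Real.sqrt (n / c) with hs
  have hs0 : 0 ≤ s := Real.sqrt_nonneg _
  have hn : (0 : ℝ) ≤ n := Nat.cast_nonneg n
  have hs2 : c * s ^ 2 = n := by
    rw [hs, Real.sq_sqrt (by positivity)]
    field_simp
  rw [Real.norm_eq_abs, Real.norm_eq_abs, abs_of_nonneg (by linarith : (0:ℝ) ≤ L n)] at h2
  have h6 := neg_abs_le (R n)
  have h7 : L n < s := by linarith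
  -- c L² ≥ c s² - c ε L / 2
  have h8 : c * s ^ 2 - c * ε / 2 * L n ≤ c * L n ^ 2 := by
    rw [h3, hs2]
    linarith
  have h9 : s ^ 2 - ε / 2 * L n ≤ L n ^ 2 := by
    have : c * (s ^ 2 - ε / 2 * L n) ≤ c * L n ^ 2 := by nlinarith
    exact le_of_mul_le_mul_left this hc
  nlinarith

/-- the upper bound -/
theorem upper (hc : 0 < c) (hL : Tendsto L atTop atTop)
    (hR : R =o[atTop] L) (h : ∀ᶠ n : ℕ in atTop, c * L n ^ 2 = n + E n + R n)
    (K θ : ℝ) (hθ : 0 < θ) (hθ1 : θ < 1) (hE : ∀ᶠ n in atTop, E n ≤ K * L n ^ (2 - θ)) :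
    ∃ K' : ℝ, ∀ᶠ n : ℕ in atTop, L n ≤ Real.sqrt (n / c) + K' * (n : ℝ) ^ ((1 - θ) / 2) := by
  have hR' := hR.def (show (0 : ℝ) < 1 by norm_num)
  set K1 : ℝ := (|K| + 1) / c with hK1
  have hK10 : 0 < K1 := by positivity
  have hpow : Tendsto (fun n => L n ^ θ) atTop atTop := (tendsto_rpow_atTop hθ).comp hL
  refine ⟨K1 * (2 / Real.sqrt c) ^ (1 - θ), ?_⟩
  filter_upwards [hE, hR', h, hL.eventually_ge_atTop 1, eventually_ge_atTop 1,
    hpow.eventually_ge_atTop (2 * K1)] with n h1 h2 h3 h4 h5 h6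
  set s := Real.sqrt (n / c) with hs
  have hs0 : 0 ≤ s := Real.sqrt_nonneg _
  have hn : (1 : ℝ) ≤ n := by exact_mod_cast h5
  have hs2 : c * s ^ 2 = n := by
    rw [hs, Real.sq_sqrt (by positivity)]
    field_simp
  have hL0 : 0 < L n := by linarith
  rw [Real.norm_eq_abs, Real.norm_eq_abs, abs_of_pos hL0, one_mul] at h2
  have h7 := le_abs_self (R n)
  have e1 : L n ^ (2 - θ) = L n ^ (1 - θ) * L n := by
    rw [show (2 : ℝ) - θ = (1 - θ) + 1 by ring, Real.rpow_add hL0, Real.rpow_one]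
  have e2 : (1 : ℝ) ≤ L n ^ (1 - θ) := Real.one_le_rpow h4 (by linarith)
  have h8 : L n ≤ L n ^ (2 - θ) := by
    rw [e1]
    nlinarith
  have h9 : c * L n ^ 2 ≤ c * s ^ 2 + (|K| + 1) * L n ^ (2 - θ) := by
    rw [h3, hs2]
    have : K * L n ^ (2 - θ) ≤ |K| * L n ^ (2 - θ) :=
      mul_le_mul_of_nonneg_right (le_abs_self K) (Real.rpow_nonneg hL0.le _)
    linarith
  have h10 : L n ^ 2 ≤ s ^ 2 + K1 * L n ^ (2 - θ) := by
    have e3 : c * (s ^ 2 + K1 * L n ^ (2 - θ)) = c * s ^ 2 + (|K| + 1) * L n ^ (2 - θ) := by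
      rw [hK1]
      field_simp
    have : c * L n ^ 2 ≤ c * (s ^ 2 + K1 * L n ^ (2 - θ)) := by rw [e3]; exact h9
    exact le_of_mul_le_mul_left this hc
  -- L ≤ 2 s
  have e4 : L n ^ 2 = L n ^ (2 - θ) * L n ^ θ := by
    rw [← Real.rpow_add hL0, show (2 : ℝ) - θ + θ = ((2 : ℕ) : ℝ) by push_cast; ring,
      Real.rpow_natCast]
  have hp : 0 < L n ^ (2 - θ) := Real.rpow_pos_of_pos hL0 _
  have h11 : K1 * L n ^ (2 - θ) ≤ L n ^ 2 / 2 := by
    rw [e4]
    nlinarith
  have h12 : L n ≤ 2 * s := by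
    by_contra hc'
    push Not at hc'
    nlinarith
  have hs1 : 0 < s := by linarith
  -- conclusion
  have h13 : L n - s ≤ K1 * L n ^ (1 - θ) := by
    by_contra hc'
    push Not at hc'
    have h14 : 0 ≤ K1 * L n ^ (1 - θ) := by positivity
    have h15 : K1 * L n ^ (1 - θ) * L n < (L n - s) * (L n + s) := by
      calc K1 * L n ^ (1 - θ) * L n < (L n - s) * L n := mul_lt_mul_of_pos_right hc' hL0
        _ ≤ (L n - s) * (L n + s) := by
          apply mul_le_mul_of_nonneg_left _ (by linarith)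
          linarith
    rw [e1] at h10
    nlinarith
  have h16 : L n ^ (1 - θ) ≤ (2 * s) ^ (1 - θ) :=
    Real.rpow_le_rpow hL0.le h12 (by linarith)
  have e5 : 2 * s = 2 / Real.sqrt c * (n : ℝ) ^ ((1 : ℝ) / 2) := by
    rw [hs, Real.sqrt_div' _ hc.le, Real.sqrt_eq_rpow (n : ℝ)]
    ring
  have e6 : (2 * s) ^ (1 - θ) = (2 / Real.sqrt c) ^ (1 - θ) * (n : ℝ) ^ ((1 - θ) / 2) := by
    rw [e5, Real.mul_rpow (by positivity) (by positivity), ← Real.rpow_mul (by positivity)]
    congr 2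
    ring
  calc L n ≤ s + K1 * L n ^ (1 - θ) := by linarith
    _ ≤ s + K1 * (2 * s) ^ (1 - θ) := by
      have := mul_le_mul_of_nonneg_left h16 hK10.le
      linarith
    _ = _ := by rw [e6]; ring

/-- the equivalence -/
theorem equiv (hc : 0 < c) (hL : Tendsto L atTop atTop)
    (hR : R =o[atTop] L) (h : ∀ᶠ n : ℕ in atTop, c * L n ^ 2 = n + E n + R n) :
    Tendsto (fun n : ℕ => L n - Real.sqrt (n / c)) atTop (nhds 0) ↔ E =o[atTop] L := by
  constructor
  · intro ht
    rw [isLittleO_iff]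
    intro ε hε
    have hR' := hR.def (show 0 < ε / 2 by positivity)
    have ht' : ∀ᶠ n : ℕ in atTop, |L n - Real.sqrt (n / c)| < min 1 (ε / (8 * c)) := by
      have := (Metric.tendsto_nhds.1 ht) (min 1 (ε / (8 * c))) (by positivity)
      filter_upwards [this] with n hn
      simpa [Real.dist_eq] using hn
    filter_upwards [ht', hR', h, hL.eventually_ge_atTop 1] with n h1 h2 h3 h4
    set s := Real.sqrt (n / c) with hs
    have hs0 : 0 ≤ s := Real.sqrt_nonneg _
    have hn : (0 : ℝ) ≤ n := Nat.cast_nonneg n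
    have hs2 : c * s ^ 2 = n := by
      rw [hs, Real.sq_sqrt (by positivity)]
      field_simp
    have hL0 : 0 < L n := by linarith
    rw [Real.norm_eq_abs, Real.norm_eq_abs, abs_of_pos hL0] at h2 ⊢
    have h5 : |L n - s| < 1 := lt_of_lt_of_le h1 (min_le_left _ _)
    have h6 : |L n - s| < ε / (8 * c) := lt_of_lt_of_le h1 (min_le_right _ _)
    have h7 : L n + s ≤ 3 * L n := by
      have := abs_lt.1 h5
      linarith [this.1, this.2]
    have e1 : E n = c * ((L n - s) * (L n + s)) - R n := by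
      have : c * ((L n - s) * (L n + s)) = c * L n ^ 2 - c * s ^ 2 := by ring
      rw [this, h3, hs2]
      ring
    rw [e1]
    have h8 : |c * ((L n - s) * (L n + s)) - R n| ≤ c * (|L n - s| * (L n + s)) + |R n| := by
      calc |c * ((L n - s) * (L n + s)) - R n| ≤ |c * ((L n - s) * (L n + s))| + |R n| := abs_sub _ _
        _ = c * (|L n - s| * (L n + s)) + |R n| := by
          rw [abs_mul, abs_mul, abs_of_pos hc, abs_of_nonneg (by linarith : 0 ≤ L n + s)]
    have h9 : |L n - s| * (L n + s) ≤ ε / (8 * c) * (3 * L n) :=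
      mul_le_mul h6.le h7 (by linarith) (by positivity)
    have h10 : c * (ε / (8 * c) * (3 * L n)) = 3 * ε / 8 * L n := by
      field_simp
    have h11 := mul_le_mul_of_nonneg_left h9 hc.le
    rw [h10] at h11
    nlinarith
  · intro hE
    rw [Metric.tendsto_nhds]
    intro ε hε
    have hR' := hR.def (show 0 < c * ε / 4 by positivity)
    have hE' := hE.def (show 0 < c * ε / 4 by positivity)
    filter_upwards [hE', hR', h, hL.eventually_ge_atTop 1] with n h1 h2 h3 h4
    set s := Real.sqrt (n / c) with hs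
    have hs0 : 0 ≤ s := Real.sqrt_nonneg _
    have hn : (0 : ℝ) ≤ n := Nat.cast_nonneg n
    have hs2 : c * s ^ 2 = n := by
      rw [hs, Real.sq_sqrt (by positivity)]
      field_simp
    have hL0 : 0 < L n := by linarith
    rw [Real.norm_eq_abs, Real.norm_eq_abs, abs_of_pos hL0] at h1 h2
    rw [Real.dist_eq, sub_zero]
    have e1 : c * ((L n - s) * (L n + s)) = E n + R n := by
      have : c * ((L n - s) * (L n + s)) = c * L n ^ 2 - c * s ^ 2 := by ring
      rw [this, h3, hs2]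
      ring
    have h5 : c * (|L n - s| * (L n + s)) ≤ c * ε / 2 * L n := by
      have : |c * ((L n - s) * (L n + s))| = c * (|L n - s| * (L n + s)) := by
        rw [abs_mul, abs_mul, abs_of_pos hc, abs_of_nonneg (by linarith : 0 ≤ L n + s)]
      rw [← this, e1]
      calc |E n + R n| ≤ |E n| + |R n| := abs_add_le _ _
        _ ≤ c * ε / 4 * L n + c * ε / 4 * L n := add_le_add h1 h2
        _ = _ := by ring
    have h6 : |L n - s| * (L n + s) ≤ ε / 2 * L n := by
      have : c * (|L n - s| * (L n + s)) ≤ c * (ε / 2 * L n) := by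
        calc _ ≤ c * ε / 2 * L n := h5
          _ = _ := by ring
      exact le_of_mul_le_mul_left this hc
    have h7 : |L n - s| * L n ≤ ε / 2 * L n :=
      le_trans (mul_le_mul_of_nonneg_left (by linarith) (abs_nonneg _)) h6
    have h8 : |L n - s| ≤ ε / 2 := le_of_mul_le_mul_right h7 hL0
    linarith

end Pool.Agent.H609R3.NM
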