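import Pool.Agent.H609R3.NM.Num

set_option autoImplicit false

/-! The size of the `n`th Markoff number. -/

namespace Pool.Agent.H609R3.NM

open Filter Asymptotics Pool.Agent.H499R2

/-- the `n`th Markoff number, `n ≥ 1` -/
noncomputable def mk (n : ℕ) : ℕ := Nat.nth P (n - 1)

theorem mk_P (n : ℕ) : P (mk n) := Nat.nth_mem_of_infinite P_infinite _

theorem mk_pos (n : ℕ) : 1 ≤ mk n := (P_iff.1 (mk_P n)).1

theorem mkN_mk {n : ℕ} (hn : 1 ≤ n) : mkN (mk n) = n := by
  classical
  rw [mkN_count, mk, Nat.count_nth_succ_of_infinite P_infinite]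
  omega

theorem mk_tendsto : Tendsto mk atTop atTop := by
  have h1 : Tendsto (Nat.nth P) atTop atTop :=
    (Nat.nth_strictMono P_infinite).tendsto_atTop
  exact h1.comp (tendsto_sub_atTop_nat 1)

/-- `tri` and `mkN` do not change between two consecutive Markoff numbers -/
theorem mk_mkN_le {N : ℕ} (hN : 1 ≤ N) : mk (mkN N) ≤ N := by
  classical
  have h1 := mkN_pos N hN
  have h2 : mkN N - 1 < Nat.count P (N + 1) := by
    rw [← mkN_count]
    omega
  have := Nat.nth_lt_of_lt_count h2
  unfold mk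
  omega

theorem tri_mk_mkN {N : ℕ} (hN : 1 ≤ N) : tri (mk (mkN N)) = tri N := by
  classical
  apply le_antisymm
  · rw [tri_eq, tri_eq]
    apply Finset.sum_le_sum_of_subset
    apply Finset.Icc_subset_Icc_right
    exact mk_mkN_le hN
  · rw [tri_eq, tri_eq]
    apply Finset.sum_le_sum_of_ne_zero
    intro m hm hne
    rw [Finset.mem_Icc] at hm ⊢
    refine ⟨hm.1, ?_⟩
    obtain ⟨p, hp⟩ := Finset.card_pos.1 (Nat.pos_of_ne_zero hne)
    have hP : P m := P_iff.2 ⟨hm.1, mk_of_prs hp⟩
    have h1 : Nat.count P m < Nat.count P (N + 1) := by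
      calc Nat.count P m < Nat.count P (m + 1) := by
            rw [Nat.count_succ, if_pos hP]
            omega
        _ ≤ Nat.count P (N + 1) := Nat.count_monotone P (by omega)
    rw [← mkN_count] at h1
    have h2 : m = Nat.nth P (Nat.count P m) := (Nat.nth_count hP).symm
    rw [h2]
    unfold mk
    apply (Nat.nth_strictMono P_infinite).monotone
    omega

theorem mkN_tendsto : Tendsto mkN atTop atTop := by
  rw [tendsto_atTop]
  intro b
  filter_upwards [eventually_ge_atTop (mk (b + 1))] with N hN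
  have h1 : mkN (mk (b + 1)) = b + 1 := mkN_mk (by omega)
  have h2 : mkN (mk (b + 1)) ≤ mkN N := by
    classical
    rw [mkN_count, mkN_count]
    exact Nat.count_monotone P (by omega)
  omega

/-- logarithm of three times the `n`th Markoff number -/
noncomputable def L (n : ℕ) : ℝ := Real.log (3 * mk n)

theorem L_tendsto : Tendsto L atTop atTop := by
  unfold L
  apply Real.tendsto_log_atTop.comp
  apply Tendsto.const_mul_atTop (by norm_num : (0 : ℝ) < 3)
  exact tendsto_natCast_atTop_atTop.comp mk_tendsto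

theorem logmk_le (n : ℕ) : Real.log (mk n) ≤ L n := by
  have h := mk_pos n
  have h' : (1 : ℝ) ≤ mk n := by exact_mod_cast h
  apply Real.log_le_log (by linarith)
  linarith

theorem logmk_nonneg (n : ℕ) : 0 ≤ Real.log (mk n) := by
  have h' : (1 : ℝ) ≤ mk n := by exact_mod_cast mk_pos n
  exact Real.log_nonneg h'

theorem L_le (n : ℕ) : L n ≤ 2 + Real.log (mk n) := by
  have h' : (1 : ℝ) ≤ mk n := by exact_mod_cast mk_pos n
  unfold L
  rw [Real.log_mul (by norm_num) (by linarith)]
  have : Real.log 3 ≤ 2 := by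
    rw [Real.log_le_iff_le_exp (by norm_num)]
    have h1 := Real.add_one_le_exp (2 : ℝ)
    linarith
  linarith

/-- the second order formula for the number of triples -/
theorem tri_asymp : ∃ c : ℝ, 0 < c ∧
    (fun N : ℕ => (tri N : ℝ) - c * Real.log (3 * N) ^ 2) =o[atTop] (fun N : ℕ => Real.log N) := by
  obtain ⟨c, hc⟩ := zagier
  have h1 := hc.comp_tendsto (tendsto_natCast_atTop_atTop (R := ℝ))
  have h2 : (fun N : ℕ => (tri N : ℝ) - c * Real.log (3 * N) ^ 2) =o[atTop]
      (fun N : ℕ => Real.log N) := by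
    refine h1.congr ?_ ?_
    · intro N
      simp only [Function.comp, cnt, Nat.floor_natCast]
      rfl
    · intro N
      rfl
  refine ⟨c, ?_, h2⟩
  -- positivity
  by_contra hc0
  push Not at hc0
  obtain ⟨c', hc', h3⟩ := mkN_lower
  have h4 := h2.def (show (0 : ℝ) < 1 by norm_num)
  have h5 : Tendsto (fun N : ℕ => Real.log (N : ℝ)) atTop atTop :=
    Real.tendsto_log_atTop.comp tendsto_natCast_atTop_atTop
  obtain ⟨N, ⟨hN1, hN2⟩, hN3⟩ := ((h4.and (h5.eventually_gt_atTop (max 1 (1 / c')))).and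
    (eventually_ge_atTop 3)).exists
  have hN1' : 1 < Real.log (N : ℝ) := lt_of_le_of_lt (le_max_left _ _) hN2
  have hN2' : 1 / c' < Real.log (N : ℝ) := lt_of_le_of_lt (le_max_right _ _) hN2
  rw [Real.norm_eq_abs, Real.norm_eq_abs, abs_of_pos (by linarith : 0 < Real.log (N : ℝ)),
    one_mul] at hN1
  have h6 := h3 N hN3
  have h7 : (mkN N : ℝ) ≤ tri N := by exact_mod_cast mkN_le_tri N
  have h8 := le_abs_self ((tri N : ℝ) - c * Real.log (3 * N) ^ 2)
  have h9 : c * Real.log (3 * N) ^ 2 ≤ 0 := mul_nonpos_of_nonpos_of_nonneg hc0 (sq_nonneg _)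
  have h10 : c' * Real.log N ^ 2 ≤ Real.log N := by linarith
  have h11 : 1 < c' * Real.log N := by
    rw [div_lt_iff₀ hc'] at hN2'
    linarith
  nlinarith

/-- the excess of the triples over the numbers at the `n`th Markoff number -/
noncomputable def E (n : ℕ) : ℝ := (tri (mk n) : ℝ) - mkN (mk n)

/-- the error term -/
noncomputable def R (c : ℝ) (n : ℕ) : ℝ := c * L n ^ 2 - tri (mk n)

theorem basic (c : ℝ) : ∀ᶠ n : ℕ in atTop, c * L n ^ 2 = n + E n + R c n := by
  filter_upwards [eventually_ge_atTop 1] with n hn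
  unfold E R
  rw [mkN_mk hn]
  ring

theorem E_nonneg (n : ℕ) : 0 ≤ E n := by
  have : (mkN (mk n) : ℝ) ≤ tri (mk n) := by exact_mod_cast mkN_le_tri _
  unfold E
  linarith

theorem R_small {c : ℝ}
    (hc : (fun N : ℕ => (tri N : ℝ) - c * Real.log (3 * N) ^ 2) =o[atTop]
      (fun N : ℕ => Real.log N)) : R c =o[atTop] L := by
  have h1 := hc.comp_tendsto mk_tendsto
  have h2 : (fun n => Real.log (mk n : ℝ)) =O[atTop] L := by
    apply IsBigO.of_bound 1
    refine Eventually.of_forall fun n => ?_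
    have h3 := logmk_nonneg n
    have h4 := logmk_le n
    rw [Real.norm_eq_abs, Real.norm_eq_abs, abs_of_nonneg h3, abs_of_nonneg (h3.trans h4), one_mul]
    exact h4
  have h3 := (h1.trans_isBigO h2).neg_left
  refine h3.congr_left fun n => ?_
  simp only [Function.comp, R, L]
  ring

/-- the excess is at most `(log)^(2 - 1/154)` -/
theorem E_upper : ∃ K : ℝ, ∀ᶠ n : ℕ in atTop, E n ≤ K * L n ^ (2 - 1 / 154 : ℝ) := by
  obtain ⟨C, hC, h1⟩ := exN_upper
  have h2 : Tendsto (fun n => Real.log (mk n : ℝ)) atTop atTop :=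
    Real.tendsto_log_atTop.comp (tendsto_natCast_atTop_atTop.comp mk_tendsto)
  -- (log y)² ≤ y^δ
  have h3 : ∀ᶠ y : ℝ in atTop, 7 * Real.log y ^ 2 + 77 ≤ y ^ (1 / 153 - 1 / 154 : ℝ) := by
    have hδ : (0 : ℝ) < 1 / 153 - 1 / 154 := by norm_num
    have a1 := (isLittleO_log_rpow_atTop (half_pos hδ)).def (show (0 : ℝ) < 1 / 4 by norm_num)
    have a2 := (tendsto_rpow_atTop hδ).eventually_ge_atTop 154
    filter_upwards [a1, a2, eventually_ge_atTop 1] with y b1 b2 b3
    have hy0 : 0 < y := by linarith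
    have hly : 0 ≤ Real.log y := Real.log_nonneg b3
    rw [Real.norm_eq_abs, Real.norm_eq_abs, abs_of_nonneg hly,
      abs_of_nonneg (Real.rpow_nonneg hy0.le _)] at b1
    have e1 : (y ^ ((1 / 153 - 1 / 154 : ℝ) / 2)) ^ 2 = y ^ (1 / 153 - 1 / 154 : ℝ) := by
      rw [← Real.rpow_natCast, ← Real.rpow_mul hy0.le]
      congr 1
      push_cast
      ring
    have b4 : Real.log y ^ 2 ≤ 1 / 16 * y ^ (1 / 153 - 1 / 154 : ℝ) := by
      rw [← e1]
      have := pow_le_pow_left₀ hly b1 2
      calc Real.log y ^ 2 ≤ _ := this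
        _ = _ := by ring
    linarith
  refine ⟨C, ?_⟩
  filter_upwards [h2.eventually h3, h2.eventually_ge_atTop 1, mk_tendsto.eventually_ge_atTop 3]
    with n b1 b2 b3
  have b4 := excess_le (mk n) b3
  have b5 := h1 (mk n) b3
  set y := Real.log (mk n : ℝ) with hy
  have hy0 : 0 < y := by linarith
  have b6 : 0 ≤ 7 * Real.log y ^ 2 + 77 := by positivity
  unfold E
  calc (tri (mk n) : ℝ) - mkN (mk n) ≤ exN (mk n) * (7 * Real.log y ^ 2 + 77) := b4
    _ ≤ C * y ^ 2 * y ^ (-(1 / 153) : ℝ) * y ^ (1 / 153 - 1 / 154 : ℝ) := by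
        apply mul_le_mul b5 b1 b6
        positivity
    _ = C * y ^ (2 - 1 / 154 : ℝ) := by
        rw [show y ^ (2 - 1 / 154 : ℝ) = y ^ (2 : ℝ) * y ^ (-(1 / 153) : ℝ) *
          y ^ (1 / 153 - 1 / 154 : ℝ) by
          rw [← Real.rpow_add hy0, ← Real.rpow_add hy0]
          congr 1
          norm_num]
        rw [show (2 : ℝ) = ((2 : ℕ) : ℝ) by norm_num, Real.rpow_natCast]
        push_cast
        ring
    _ ≤ C * L n ^ (2 - 1 / 154 : ℝ) := by
        apply mul_le_mul_of_nonneg_left _ hC.le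
        exact Real.rpow_le_rpow hy0.le (logmk_le n) (by norm_num)

/-- `E = o(L)` means that the excess is `o(log N)` -/
theorem E_iff : E =o[atTop] L ↔
    (fun N : ℕ => (tri N : ℝ) - mkN N) =o[atTop] (fun N : ℕ => Real.log N) := by
  constructor
  · intro h
    have h1 := h.comp_tendsto mkN_tendsto
    have h2 : (fun N : ℕ => L (mkN N)) =O[atTop] (fun N : ℕ => Real.log N) := by
      apply IsBigO.of_bound 3
      have h5 : Tendsto (fun N : ℕ => Real.log (N : ℝ)) atTop atTop :=
        Real.tendsto_log_atTop.comp tendsto_natCast_atTop_atTop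
      filter_upwards [h5.eventually_ge_atTop 1, eventually_ge_atTop 1] with N b1 b2
      have b3 := L_le (mkN N)
      have b4 : Real.log (mk (mkN N)) ≤ Real.log N := by
        apply Real.log_le_log
        · exact_mod_cast mk_pos _
        · exact_mod_cast mk_mkN_le b2
      have b5 := (logmk_nonneg (mkN N)).trans (logmk_le (mkN N))
      rw [Real.norm_eq_abs, Real.norm_eq_abs, abs_of_nonneg b5, abs_of_nonneg (by linarith)]
      linarith
    have h3 := h1.trans_isBigO h2
    refine h3.congr' ?_ EventuallyEq.rfl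
    filter_upwards [eventually_ge_atTop 1] with N hN
    simp only [Function.comp, E]
    rw [tri_mk_mkN hN, mkN_mk (mkN_pos N hN)]
  · intro h
    have h1 := h.comp_tendsto mk_tendsto
    refine h1.trans_isBigO ?_
    apply IsBigO.of_bound 1
    refine Eventually.of_forall fun n => ?_
    have h3 := logmk_nonneg n
    have h4 := logmk_le n
    simp only [Function.comp]
    rw [Real.norm_eq_abs, Real.norm_eq_abs, abs_of_nonneg h3, abs_of_nonneg (h3.trans h4), one_mul]
    exact h4

theorem ratio_eq {c : ℝ} (hc : 0 < c) (n : ℕ) :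
    (mk n : ℝ) / Real.exp (Real.sqrt n / Real.sqrt c) =
      1 / 3 * Real.exp (L n - Real.sqrt (n / c)) := by
  have h : (0 : ℝ) < mk n := by exact_mod_cast mk_pos n
  rw [Real.exp_sub, L, Real.exp_log (by positivity), Real.sqrt_div' _ hc.le]
  field_simp

theorem tri_limit {c : ℝ}
    (hc : (fun N : ℕ => (tri N : ℝ) - c * Real.log (3 * N) ^ 2) =o[atTop]
      (fun N : ℕ => Real.log N)) :
    Tendsto (fun N : ℕ => (tri N : ℝ) / Real.log N ^ 2) atTop (nhds c) := by
  have h5 : Tendsto (fun N : ℕ => Real.log (N : ℝ)) atTop atTop :=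
    Real.tendsto_log_atTop.comp tendsto_natCast_atTop_atTop
  have h1 : Tendsto (fun N : ℕ => ((tri N : ℝ) - c * Real.log (3 * N) ^ 2) / Real.log N)
      atTop (nhds 0) := hc.tendsto_div_nhds_zero
  have h2 : Tendsto (fun N : ℕ => (Real.log (N : ℝ))⁻¹) atTop (nhds 0) :=
    tendsto_inv_atTop_zero.comp h5
  have h3 : Tendsto (fun N : ℕ => ((tri N : ℝ) - c * Real.log (3 * N) ^ 2) / Real.log N *
      (Real.log (N : ℝ))⁻¹ + c * (1 + Real.log 3 * (Real.log (N : ℝ))⁻¹) ^ 2) atTop
      (nhds (0 * 0 + c * (1 + Real.log 3 * 0) ^ 2)) :=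
    (h1.mul h2).add (((h2.const_mul (Real.log 3)).const_add 1).pow 2 |>.const_mul c)
  have h4 : (0 : ℝ) * 0 + c * (1 + Real.log 3 * 0) ^ 2 = c := by ring
  rw [h4] at h3
  refine h3.congr' ?_
  filter_upwards [h5.eventually_ge_atTop 1, eventually_ge_atTop 1] with N b1 b2
  have hN : (0 : ℝ) < N := by exact_mod_cast b2
  have hl : Real.log (N : ℝ) ≠ 0 := by linarith
  rw [Real.log_mul (by norm_num) hN.ne']
  field_simp
  ring

end Pool.Agent.H609R3.NM
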