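import Mathlib
import Pool.Agent.H409R2.MkConst

set_option autoImplicit false

/-! Zagier's second-order formula for the number of Markoff triples, from the library H409R2
(the second half of the proof of MP_30e119_nt.ZagierSecondOrder, copied). -/

namespace Pool.Agent.H609R3.NM

open Filter Asymptotics

open Pool.Agent.H409R2.MZ.Mk (Nd root desc al be ga Pn Pn_inj Ph Ph_pos Ph_surj nd nd_eq zv small_nat PP
  count_eq g_near lam lam_lower lam_pos)

/-- The number of Markov triples `u ≤ v ≤ w` of positive integers with `w ≤ n`. -/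
noncomputable def cnt (n : ℝ) : ℕ :=
  ((Finset.Icc 1 ⌊n⌋₊ ×ˢ (Finset.Icc 1 ⌊n⌋₊ ×ˢ Finset.Icc 1 ⌊n⌋₊)).filter
    (fun t : ℕ × ℕ × ℕ => t.1 ≤ t.2.1 ∧ t.2.1 ≤ t.2.2 ∧
      t.1 ^ 2 + t.2.1 ^ 2 + t.2.2 ^ 2 = 3 * t.1 * t.2.1 * t.2.2)).card

theorem zagier : ∃ c : ℝ,
    (fun n : ℝ => (cnt n : ℝ) - c * (Real.log (3 * n)) ^ 2) =o[atTop]
      (fun n : ℝ => Real.log n) := by
  refine ⟨Pool.Agent.H409R2.MkConst.CC, ?_⟩
  have hc := Pool.Agent.H409R2.MkConst.PP_asymp'
  set c := Pool.Agent.H409R2.MkConst.CC with hcdef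
  rw [Asymptotics.isLittleO_iff]
  intro ε hε
  obtain ⟨T0, hT0, hT⟩ := hc (ε / 4) (by positivity)
  have hK : 0 ≤ (2 + 6 * |c|) / (ε / 2) := by positivity
  rw [Filter.eventually_atTop]
  refine ⟨max 3 (max (Real.exp T0) (Real.exp ((2 + 6 * |c|) / (ε / 2)))), ?_⟩
  intro x hx
  have hx3 : 3 ≤ x := (le_max_left _ _).trans hx
  have hxT : Real.exp T0 ≤ x := ((le_max_left _ _).trans (le_max_right _ _)).trans hx
  have hxK : Real.exp ((2 + 6 * |c|) / (ε / 2)) ≤ x := ((le_max_right _ _).trans (le_max_right _ _)).trans hx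
  have hx0 : 0 < x := by linarith
  unfold cnt
  rw [count_eq x (by linarith)]
  obtain ⟨hg1, hg2⟩ := g_near x (by linarith)
  have hlog : 1 ≤ Real.log x := by
    rw [Real.le_log_iff_exp_le hx0]
    have := Real.exp_one_lt_d9
    linarith
  have hlogK : (2 + 6 * |c|) / (ε / 2) ≤ Real.log x := (Real.le_log_iff_exp_le hx0).mpr hxK
  have hlog3 : Real.log (3 * x) ≤ 2 * Real.log x := by
    rw [Real.log_mul (by norm_num) hx0.ne']
    have : Real.log 3 ≤ Real.log x := Real.log_le_log (by norm_num) hx3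
    linarith
  have hgx : T0 ≤ Pool.Agent.H409R2.MZ.Mk.g x := by
    have h1 : x ≤ lam x := by have := lam_lower x (by linarith); linarith
    unfold Pool.Agent.H409R2.MZ.Mk.g
    rw [Real.le_log_iff_exp_le (lam_pos x (by linarith))]
    linarith
  have hT1 := hT (Pool.Agent.H409R2.MZ.Mk.g x) hgx
  set T := Pool.Agent.H409R2.MZ.Mk.g x with hTdef
  set L := Real.log (3 * x) with hL
  have hT1' : 1 ≤ T := hT0.trans hgx
  have hL0 : 0 ≤ L := by linarith
  have hLx : L ≤ 3 * x := by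
    have := Real.log_le_sub_one_of_pos (by positivity : 0 < 3 * x)
    linarith
  have hsq : |c * (T ^ 2 - L ^ 2)| ≤ 6 * |c| := by
    rw [abs_mul, mul_comm (6 : ℝ)]
    apply mul_le_mul_of_nonneg_left _ (abs_nonneg c)
    rw [abs_sub_comm, abs_of_nonneg (by nlinarith)]
    have e : L ^ 2 - T ^ 2 = (L - T) * (L + T) := by ring
    rw [e]
    have h1 : (L - T) * (L + T) ≤ 1 / x ^ 2 * (6 * x) := by
      apply mul_le_mul hg2 (by linarith) (by linarith) (by positivity)
    have h2 : 1 / x ^ 2 * (6 * x) = 6 / x := by field_simp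
    have h3 : 6 / x ≤ 6 := by
      rw [div_le_iff₀ hx0]; linarith
    linarith
  rw [Real.norm_eq_abs, Real.norm_eq_abs, abs_of_nonneg (by linarith : 0 ≤ Real.log x)]
  have e : ((2 + PP T : ℕ) : ℝ) - c * L ^ 2 = 2 + (((PP T : ℕ) : ℝ) - c * T ^ 2) + c * (T ^ 2 - L ^ 2) := by
    push_cast; ring
  rw [e]
  have h1 : |2 + (((PP T : ℕ) : ℝ) - c * T ^ 2) + c * (T ^ 2 - L ^ 2)| ≤ 2 + ε / 4 * T + 6 * |c| := by
    refine (abs_add_le _ _).trans ?_
    have h2 : |2 + (((PP T : ℕ) : ℝ) - c * T ^ 2)| ≤ 2 + ε / 4 * T := by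
      refine (abs_add_le _ _).trans ?_
      rw [abs_of_pos (by norm_num : (0 : ℝ) < 2)]
      linarith
    linarith
  have h3 : 2 + 6 * |c| ≤ ε / 2 * Real.log x := by
    rw [div_le_iff₀ (by positivity)] at hlogK
    linarith
  have h4 : ε / 4 * T ≤ ε / 4 * (2 * Real.log x) := mul_le_mul_of_nonneg_left (by linarith) (by positivity)
  linarith

end Pool.Agent.H609R3.NM
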