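import Mathlib
import Pool.Agent.H609R3.NM.Zag
import Pool.Agent.H499R2.Dens15
import Pool.Agent.H499R2.Mult3
import Pool.Agent.H609R3.NM.Ana

set_option autoImplicit false

/-! Counting Markoff numbers and Markoff triples. -/

namespace Pool.Agent.H609R3.NM

open Filter Asymptotics Pool.Agent.H499R2

/-- Markoff numbers -/
def P (m : ℕ) : Prop := ∃ x y : ℕ, 0 < x ∧ 0 < y ∧ 0 < m ∧ x ^ 2 + y ^ 2 + m ^ 2 = 3 * x * y * m

/-- the number of Markoff triples with largest entry at most `N` -/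
def tri (N : ℕ) : ℕ :=
  ((Finset.Icc 1 N ×ˢ Finset.Icc 1 N ×ˢ Finset.Icc 1 N).filter
    (fun p : ℕ × ℕ × ℕ =>
      p.1 ≤ p.2.1 ∧ p.2.1 ≤ p.2.2 ∧
        p.1 ^ 2 + p.2.1 ^ 2 + p.2.2 ^ 2 = 3 * p.1 * p.2.1 * p.2.2)).card

/-- every Markoff number is the largest entry of a triple -/
theorem exists_top (m : ℕ) (hm : 0 < m) : ∀ s x y : ℕ, x + y = s → 0 < x → 0 < y →
    x ^ 2 + y ^ 2 + m ^ 2 = 3 * x * y * m →
    ∃ a b : ℕ, 0 < a ∧ a ≤ b ∧ b ≤ m ∧ a ^ 2 + b ^ 2 + m ^ 2 = 3 * a * b * m := by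
  intro s
  induction s using Nat.strong_induction_on with
  | _ s ih =>
    have key : ∀ x y : ℕ, x ≤ y → x + y = s → 0 < x → 0 < y →
        x ^ 2 + y ^ 2 + m ^ 2 = 3 * x * y * m →
        ∃ a b : ℕ, 0 < a ∧ a ≤ b ∧ b ≤ m ∧ a ^ 2 + b ^ 2 + m ^ 2 = 3 * a * b * m := by
      intro x y hxy hs hx hy h
      by_cases hym : y ≤ m
      · exact ⟨x, y, hx, hxy, hym, h⟩
      push Not at hym
      -- the other root
      have h1 : y < 3 * x * m := by
        by_contra hc
        push Not at hc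
        have : 3 * x * y * m ≤ y * y := by
          calc 3 * x * y * m = y * (3 * x * m) := by ring
            _ ≤ y * y := Nat.mul_le_mul_left _ hc
        nlinarith
      obtain ⟨y', hy'⟩ : ∃ y', 3 * x * m = y + y' := ⟨3 * x * m - y, by omega⟩
      have hy'0 : 0 < y' := by omega
      have h2 : y * y' = x ^ 2 + m ^ 2 := by
        have : y * (3 * x * m) = x ^ 2 + y ^ 2 + m ^ 2 := by rw [h]; ring
        rw [hy'] at this
        nlinarith
      have h3 : y' < y := by
        by_contra hc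
        push Not at hc
        have h4 : y * y ≤ x ^ 2 + m ^ 2 := by
          rw [← h2]
          exact Nat.mul_le_mul_left _ hc
        -- f(max x m) ≤ 0 fails
        have hx1 : (1 : ℤ) ≤ x := by exact_mod_cast hx
        have hm1 : (1 : ℤ) ≤ m := by exact_mod_cast hm
        have hc' : (y : ℤ) ≤ y' := by exact_mod_cast hc
        have hxy' : (x : ℤ) ≤ y := by exact_mod_cast hxy
        have hym' : (m : ℤ) + 1 ≤ y := by exact_mod_cast hym
        have e1 : (3 * x * m : ℤ) = y + y' := by exact_mod_cast hy'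
        have e2 : (y * y' : ℤ) = x ^ 2 + m ^ 2 := by exact_mod_cast h2
        rcases le_total x m with hxm | hxm
        · have hxm' : (x : ℤ) ≤ m := by exact_mod_cast hxm
          -- (y - m) (y' - m) > 0
          have : (0 : ℤ) < (y - m) * (y' - m) := mul_pos (by linarith) (by linarith)
          nlinarith
        · have hxm' : (m : ℤ) ≤ x := by exact_mod_cast hxm
          -- (y - x) (y' - x) ≥ 0
          have h5 : (0 : ℤ) ≤ (y - x) * (y' - x) := mul_nonneg (by linarith) (by linarith)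
          have h6 : ((y : ℤ) - x) * (y' - x) = 2 * x ^ 2 + m ^ 2 - 3 * x ^ 2 * m := by
            have : ((y : ℤ) - x) * (y' - x) = y * y' - x * (y + y') + x ^ 2 := by ring
            rw [this, e2, ← e1]
            ring
          rw [h6] at h5
          rcases eq_or_lt_of_le hm1 with hm2 | hm2
          · -- m = 1
            have hm3 : (m : ℤ) = 1 := hm2.symm
            rw [hm3] at h5 e1 e2
            have h7 : (x : ℤ) ^ 2 ≤ 1 := by linarith
            have h8 : (x : ℤ) = 1 := by nlinarith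
            rw [h8] at e1 e2
            nlinarith
          · have h9 : (2 : ℤ) ≤ m := hm2
            have : (m : ℤ) ^ 2 ≤ x ^ 2 := by nlinarith
            nlinarith [mul_pos (show (0 : ℤ) < x ^ 2 by positivity) (show (0 : ℤ) < m by linarith)]
      refine ih (x + y') (by omega) x y' rfl hx hy'0 ?_
      have : x ^ 2 + y' ^ 2 + m ^ 2 = y' * (y + y') := by
        have : y' * (y + y') = y * y' + y' ^ 2 := by ring
        rw [this, h2]
        ring
      rw [this, ← hy']
      ring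
    intro x y hs hx hy h
    rcases le_total x y with hxy | hxy
    · exact key x y hxy hs hx hy h
    · refine key y x hxy (by omega) hy hx ?_
      have e : 3 * y * x * m = 3 * x * y * m := by ring
      rw [e, ← h]
      ring

theorem prs_nonempty {m : ℕ} (hm : 1 ≤ m) (h : Mk m) : (prs m).Nonempty := by
  obtain ⟨x, y, hx, hy, he⟩ := h
  obtain ⟨a, b, ha, hab, hb, hab'⟩ := exists_top m hm (x + y) x y rfl hx hy he
  refine ⟨(a, b), ?_⟩
  unfold prs
  rw [Finset.mem_filter, Finset.mem_product, Finset.mem_Icc, Finset.mem_Icc]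
  exact ⟨⟨⟨ha, hab.trans hb⟩, ha.trans_le hab, hb⟩, hab, hab'⟩

theorem mk_of_prs {m : ℕ} {p : ℕ × ℕ} (h : p ∈ prs m) : Mk m := by
  unfold prs at h
  rw [Finset.mem_filter, Finset.mem_product, Finset.mem_Icc, Finset.mem_Icc] at h
  exact ⟨p.1, p.2, h.1.1.1, h.1.2.1, h.2.2⟩

theorem tri_eq (N : ℕ) : tri N = ∑ m ∈ Finset.Icc 1 N, (prs m).card := by
  classical
  unfold tri
  rw [Finset.card_eq_sum_card_fiberwise (f := fun p : ℕ × ℕ × ℕ => p.2.2) (t := Finset.Icc 1 N)]
  · apply Finset.sum_congr rfl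
    intro m hm
    rw [Finset.mem_Icc] at hm
    refine Finset.card_nbij' (fun t => (t.1, t.2.1)) (fun p => (p.1, p.2, m)) ?_ ?_ ?_ ?_
    · rintro ⟨a, b, c⟩ h
      simp only [Finset.coe_filter, Finset.mem_filter, Finset.mem_product, Finset.mem_Icc,
        Set.mem_ofPred_eq, prs] at h ⊢
      obtain ⟨⟨⟨⟨h1, h2⟩, ⟨h3, h4⟩, h5, h6⟩, h7, h8, h9⟩, h10⟩ := h
      subst h10
      exact ⟨⟨⟨h1, h7.trans h8⟩, h3, h8⟩, h7, h9⟩
    · rintro ⟨a, b⟩ h
      simp only [Finset.coe_filter, Finset.mem_filter, Finset.mem_product, Finset.mem_Icc,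
        Set.mem_ofPred_eq, prs] at h ⊢
      obtain ⟨⟨⟨h1, h2⟩, h3, h4⟩, h5, h6⟩ := h
      exact ⟨⟨⟨⟨h1, h2.trans hm.2⟩, ⟨h3, h4.trans hm.2⟩, hm.1, hm.2⟩, h5, h4, h6⟩, trivial⟩
    · rintro ⟨a, b, c⟩ h
      simp only [Finset.coe_filter, Finset.mem_filter, Set.mem_ofPred_eq] at h
      obtain ⟨-, h10⟩ := h
      subst h10
      rfl
    · rintro ⟨a, b⟩ h
      rfl
  · rintro ⟨a, b, c⟩ h
    simp only [Finset.coe_filter, Finset.mem_product, Finset.mem_Icc, Set.mem_ofPred_eq] at h
    simp only [Finset.coe_Icc, Set.mem_Icc]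
    exact h.1.2.2

theorem card_le_one {m : ℕ} (h : ¬ Ex m) : (prs m).card ≤ 1 := by
  rw [Finset.card_le_one]
  intro p hp q hq
  by_contra hne
  apply h
  unfold prs at hp hq
  rw [Finset.mem_filter, Finset.mem_product, Finset.mem_Icc, Finset.mem_Icc] at hp hq
  exact ⟨p, q, hne, ⟨hp.1.1.1, hp.2.1, hp.1.2.2, hp.2.2⟩, hq.1.1.1, hq.2.1, hq.1.2.2, hq.2.2⟩

theorem mkN_le_tri (N : ℕ) : mkN N ≤ tri N := by
  classical
  rw [tri_eq]
  unfold mkN
  rw [Finset.card_filter]
  apply Finset.sum_le_sum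
  intro m hm
  rw [Finset.mem_Icc] at hm
  split_ifs with h
  · exact Finset.card_pos.2 (prs_nonempty hm.1 h)
  · exact Nat.zero_le _

theorem excess_le (N : ℕ) (hN : 3 ≤ N) :
    (tri N : ℝ) - mkN N ≤ exN N * (7 * (Real.log (Real.log N)) ^ 2 + 77) := by
  classical
  rw [tri_eq]
  unfold mkN exN
  rw [Finset.card_filter, Finset.card_filter]
  push_cast
  rw [← Finset.sum_sub_distrib, Finset.sum_mul]
  apply Finset.sum_le_sum
  intro m hm
  rw [Finset.mem_Icc] at hm
  by_cases hE : Ex m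
  · have h5 := Ex_five hE hm.1
    have h1 := mult_bound m (by omega)
    have hl : ∀ k : ℕ, 5 ≤ k → 1 ≤ Real.log k := by
      intro k hk
      have hk' : (5 : ℝ) ≤ k := by exact_mod_cast hk
      rw [Real.le_log_iff_exp_le (by linarith)]
      have := Real.exp_one_lt_d9
      linarith
    have h2 : Real.log (Real.log m) ≤ Real.log (Real.log N) := by
      apply Real.log_le_log (by linarith [hl m h5])
      apply Real.log_le_log (by positivity)
      exact_mod_cast hm.2
    have h3 : 0 ≤ Real.log (Real.log m) := Real.log_nonneg (hl m h5)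
    have h4 : Real.log (Real.log m) ^ 2 ≤ Real.log (Real.log N) ^ 2 :=
      pow_le_pow_left₀ h3 h2 2
    rw [if_pos hE, one_mul]
    have h6 : (0 : ℝ) ≤ if Mk m then 1 else 0 := by split_ifs <;> norm_num
    linarith
  · rw [if_neg hE, zero_mul]
    have h1 := card_le_one hE
    by_cases hM : Mk m
    · rw [if_pos hM]
      have : ((prs m).card : ℝ) ≤ 1 := by exact_mod_cast h1
      linarith
    · rw [if_neg hM]
      have : (prs m).card = 0 := by
        rw [Finset.card_eq_zero, Finset.eq_empty_iff_forall_notMem]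
        exact fun p hp => hM (mk_of_prs hp)
      rw [this]
      norm_num

theorem P_iff {m : ℕ} : P m ↔ 1 ≤ m ∧ Mk m := by
  constructor
  · rintro ⟨x, y, hx, hy, hm, h⟩
    exact ⟨hm, x, y, hx, hy, h⟩
  · rintro ⟨hm, x, y, hx, hy, h⟩
    exact ⟨x, y, hx, hy, hm, h⟩

open Classical in
theorem mkN_count (N : ℕ) : mkN N = Nat.count P (N + 1) := by
  rw [Nat.count_eq_card_filter_range]
  unfold mkN
  congr 1
  ext m
  rw [Finset.mem_filter, Finset.mem_filter, Finset.mem_Icc, Finset.mem_range, P_iff]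
  constructor
  · rintro ⟨⟨h1, h2⟩, h3⟩
    exact ⟨by omega, h1, h3⟩
  · rintro ⟨h1, h2, h3⟩
    exact ⟨⟨h2, by omega⟩, h3⟩

theorem P_infinite : (setOf P).Infinite := by
  classical
  intro hfin
  obtain ⟨c, hc, h⟩ := mkN_lower
  have hb : ∀ N, mkN N ≤ hfin.toFinset.card := by
    intro N
    unfold mkN
    apply Finset.card_le_card
    intro m hm
    rw [Finset.mem_filter, Finset.mem_Icc] at hm
    rw [Set.Finite.mem_toFinset]
    exact P_iff.2 ⟨hm.1.1, hm.2⟩
  have ht : Tendsto (fun N : ℕ => c * (Real.log N) ^ 2) atTop atTop := by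
    apply Tendsto.const_mul_atTop hc
    exact (tendsto_pow_atTop (by norm_num)).comp
      (Real.tendsto_log_atTop.comp tendsto_natCast_atTop_atTop)
  obtain ⟨N, hN1, hN2⟩ := ((ht.eventually_gt_atTop ((hfin.toFinset.card : ℝ))).and
    (eventually_ge_atTop 3)).exists
  have h1 := h N hN2
  have h2 : (mkN N : ℝ) ≤ hfin.toFinset.card := by exact_mod_cast hb N
  linarith

end Pool.Agent.H609R3.NM
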